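import Pool.Agent.H.MP_848d58_co.C

namespace Pool.Agent.Results.MP_6f03fc_co.All

open Pool.Agent.H.MP_848d58_co

theorem result (G : Type) [Group G] [Fintype G] [DecidableEq G] [Nontrivial G] (m n : ℕ)
    (hn : 1 ≤ n) (hmn : n < m) :
    ∃ (P : Type) (_ : Fintype P) (_ : PartialOrder P) (_ : MulAction G P), FreePoset G P ∧
      IsLeast {k | SindLe G (Ord (Set.univ : Set P)) k} m ∧
      IsLeast {k | IndLe G (Ord (Set.univ : Set P)) k} n := by
  obtain ⟨P, _, _, _, h1, h2, h3⟩ := posets (G := G) (r := (· ≠ ·)) (fun _ _ h => h.ne)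
    (fun _ _ h => h) hn hmn
  exact ⟨P, _, _, _, h1, by simpa only [sind_iff] using h3, h2⟩

end Pool.Agent.Results.MP_6f03fc_co.All
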